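import Pool.Agent.H3.MatConvRow

/-!
# Entrywise complex conjugation of tuples and of graded sets
-/

open Matrix
open scoped ComplexOrder

namespace Pool.Agent.H3.MatConv

variable {g : ℕ}

/-- The entrywise complex conjugate of a matrix. -/
def conjM {m n : ℕ} (A : Matrix (Fin m) (Fin n) ℂ) : Matrix (Fin m) (Fin n) ℂ :=
  A.map (starRingEnd ℂ)

/-- The entrywise complex conjugate of a tuple. -/
def conjT {n : ℕ} (X : Tup g n) : Tup g n := fun j => (X j).map (starRingEnd ℂ)

/-- `K` is closed under entrywise complex conjugation. -/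
def IsConjClosed (K : GSet g) : Prop := ∀ n : ℕ, ∀ X ∈ K n, conjT X ∈ K n

theorem conjM_conjM {m n : ℕ} (A : Matrix (Fin m) (Fin n) ℂ) : conjM (conjM A) = A := by
  ext a b
  simp [conjM]

theorem conjT_conjT {n : ℕ} (X : Tup g n) : conjT (conjT X) = X := by
  funext j
  exact conjM_conjM (X j)

theorem conjM_mul {l m n : ℕ} (A : Matrix (Fin l) (Fin m) ℂ) (B : Matrix (Fin m) (Fin n) ℂ) :
    conjM (A * B) = conjM A * conjM B := by
  unfold conjM
  exact Matrix.map_mul

theorem conjM_conjTranspose {m n : ℕ} (A : Matrix (Fin m) (Fin n) ℂ) :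
    conjM Aᴴ = (conjM A)ᴴ := by
  ext a b
  simp [conjM]

theorem conjM_add {m n : ℕ} (A B : Matrix (Fin m) (Fin n) ℂ) :
    conjM (A + B) = conjM A + conjM B := by
  ext a b
  simp [conjM]

theorem conjM_sum {m n : ℕ} {ι : Type} (s : Finset ι) (A : ι → Matrix (Fin m) (Fin n) ℂ) :
    conjM (∑ i ∈ s, A i) = ∑ i ∈ s, conjM (A i) := by
  ext a b
  simp [conjM, Matrix.sum_apply]

theorem conjM_one {n : ℕ} : conjM (1 : Matrix (Fin n) (Fin n) ℂ) = 1 := by
  unfold conjM
  exact Matrix.map_one _ (map_zero _) (map_one _)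

theorem conjM_zero {m n : ℕ} : conjM (0 : Matrix (Fin m) (Fin n) ℂ) = 0 := by
  ext a b
  simp [conjM]

theorem conjM_eq_zero {m n : ℕ} {A : Matrix (Fin m) (Fin n) ℂ} (h : conjM A = 0) : A = 0 := by
  rw [← conjM_conjM A, h, conjM_zero]

theorem conjT_apply {n : ℕ} (X : Tup g n) (j : Fin g) : conjT X j = conjM (X j) := rfl

/-- conjugation of a matrix convex combination -/
theorem conj_comb {n : ℕ} {X : Tup g n} {ι : Type} [Fintype ι] {m : ι → ℕ}
    {Y : ∀ i : ι, Tup g (m i)} {V : ∀ i : ι, Matrix (Fin (m i)) (Fin n) ℂ}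
    (h : IsMatrixConvexComb X ι m Y V) :
    IsMatrixConvexComb (conjT X) ι m (fun i => conjT (Y i)) (fun i => conjM (V i)) := by
  obtain ⟨h1, h2⟩ := h
  refine ⟨?_, fun j => ?_⟩
  · have := congrArg conjM h1
    rw [conjM_sum, conjM_one] at this
    rw [← this]
    refine Finset.sum_congr rfl fun i _ => ?_
    rw [conjM_mul, conjM_conjTranspose]
  · rw [conjT_apply, h2 j, conjM_sum]
    refine Finset.sum_congr rfl fun i _ => ?_
    rw [conjM_mul, conjM_mul, conjM_conjTranspose]
    rfl

theorem mconv_conjClosed {S : GSet g} (hS : IsConjClosed S) : IsConjClosed (mconv S) := by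
  rintro n X ⟨hn, ι, hι, m, Y, V, hY, hc⟩
  exact ⟨hn, ι, hι, m, fun i => conjT (Y i), fun i => conjM (V i), fun i => hS _ _ (hY i),
    conj_comb hc⟩

theorem conjT_lift {n : ℕ} (Z : Tup g n) : conjT (lift Z) = lift (conjT Z) := by
  funext j
  refine Fin.lastCases ?_ (fun j => ?_) j
  · rw [conjT_apply, lift_last, lift_last, conjM_sum]
    refine Finset.sum_congr rfl fun j _ => ?_
    rw [conjM_mul, conjT_apply]
  · rw [conjT_apply, lift_castSucc, lift_castSucc, conjT_apply]

theorem Lift_conjClosed {L : GSet g} (hL : IsConjClosed L) : IsConjClosed (Lift L) := by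
  refine mconv_conjClosed ?_
  rintro n X ⟨Z, hZ, rfl⟩
  exact ⟨conjT Z, hL _ _ hZ, (conjT_lift Z).symm⟩

/-- The entrywise conjugate of a graded set. -/
def conjS (K : GSet g) : GSet g := fun n => {X | conjT X ∈ K n}

theorem isHermitian_of_conjM {n : ℕ} {A : Matrix (Fin n) (Fin n) ℂ}
    (h : (conjM A).IsHermitian) : A.IsHermitian := by
  unfold Matrix.IsHermitian at h ⊢
  rw [← conjM_conjTranspose] at h
  have := congrArg conjM h
  rwa [conjM_conjM, conjM_conjM] at this

theorem conjS_selfAdjoint {K : GSet g} (hK : IsSelfAdjointSet K) : IsSelfAdjointSet (conjS K) := by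
  refine ⟨?_, fun n X hX j => isHermitian_of_conjM (hK.2 n _ hX j)⟩
  ext X
  simp only [conjS, Set.mem_ofPred_eq, hK.1, Set.mem_empty_iff_false]

theorem conjS_matrixConvex {K : GSet g} (hK : IsMatrixConvex K) : IsMatrixConvex (conjS K) := by
  rintro n X ⟨hn, ι, hι, m, Y, V, hY, hc⟩
  exact hK n ⟨hn, ι, hι, m, fun i => conjT (Y i), fun i => conjM (V i), fun i => hY i,
    conj_comb hc⟩

theorem continuous_conjT {n : ℕ} : Continuous (conjT : Tup g n → Tup g n) := by
  refine continuous_pi fun j => continuous_pi fun a => continuous_pi fun b => ?_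
  exact Complex.continuous_conj.comp
    ((continuous_apply b).comp ((continuous_apply a).comp (continuous_apply j)))

theorem conjS_closedBounded {K : GSet g} (hK : IsClosedBounded K) :
    IsClosedBounded (conjS K) := by
  intro n
  obtain ⟨h1, C, hC⟩ := hK n
  refine ⟨h1.preimage continuous_conjT, C, fun X hX j a b => ?_⟩
  have := hC _ hX j a b
  simpa [conjT] using this

/-- The levelwise union of `K` and its conjugate. -/
def unionConj (K : GSet g) : GSet g := fun n => K n ∪ conjS K n

theorem unionConj_conjClosed (K : GSet g) : IsConjClosed (unionConj K) := by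
  rintro n X (hX | hX)
  · right
    show conjT (conjT X) ∈ K n
    rwa [conjT_conjT]
  · left
    exact hX

theorem unionConj_selfAdjoint {K : GSet g} (hK : IsSelfAdjointSet K) :
    IsSelfAdjointSet (unionConj K) := by
  refine ⟨?_, fun n X hX j => ?_⟩
  · unfold unionConj
    rw [hK.1, (conjS_selfAdjoint hK).1, Set.union_empty]
  · rcases hX with hX | hX
    · exact hK.2 n X hX j
    · exact (conjS_selfAdjoint hK).2 n X hX j

end Pool.Agent.H3.MatConv
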