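import Pool.Agent.H65.MC.Trunc

/-!
# Points of the row ball have a nontrivial dilation inside the row ball
-/

open Matrix
open scoped ComplexOrder

namespace Pool.Agent.H3.MatConv

/-- Every point of the row ball is a compression of a point of the row ball of the next level which
is not unitarily equivalent to a direct sum of the given point with another tuple. -/
theorem rowBall_dilation {n : ℕ} {X : Tup 4 n} (hX : X ∈ rowBall n) :
    ∃ (Y : Tup 4 (n + 1)) (V : Matrix (Fin (n + 1)) (Fin n) ℂ), Y ∈ rowBall (n + 1) ∧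
      Vᴴ * V = 1 ∧ (∀ j, X j = Vᴴ * Y j * V) ∧
      ∀ (l : ℕ) (Z : Tup 4 l), ¬ UnitarilyEquivalentSum Y X Z := by
  classical
  have hn : 0 < n := hX.1
  obtain ⟨x, y, hxy, hnorm⟩ := exists_kernel hn (A₁ X) (A₂ X)
  -- off-diagonal parts
  let β : Fin 4 → Matrix (Fin n) (Fin 1) ℂ :=
    ![(1 / 2 : ℂ) • x, (Complex.I / 2) • x, (1 / 2 : ℂ) • y, (Complex.I / 2) • y]
  let e : Fin n ⊕ Fin 1 ≃ Fin (n + 1) := finSumFinEquiv
  let T : Fin 4 → Matrix (Fin n ⊕ Fin 1) (Fin n ⊕ Fin 1) ℂ := fun j =>
    Matrix.fromBlocks (X j) (β j) (β j)ᴴ 0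
  let Y : Tup 4 (n + 1) := fun j => (T j).submatrix e.symm e.symm
  have hT1 : T 0 + Complex.I • T 1 = Matrix.fromBlocks (A₁ X) 0 xᴴ 0 := by
    simp only [T, Matrix.fromBlocks_smul, Matrix.fromBlocks_add, A₁]
    congr 1
    · simp only [β, Matrix.cons_val_zero, Matrix.cons_val_one, smul_smul, ← add_smul]
      rw [show (1 / 2 : ℂ) + Complex.I * (Complex.I / 2) = 0 by
        rw [← mul_div_assoc, Complex.I_mul_I]; ring]
      simp
    · simp only [β, Matrix.cons_val_zero, Matrix.cons_val_one, Matrix.conjTranspose_smul,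
        smul_smul, ← add_smul]
      rw [show star (1 / 2 : ℂ) + Complex.I * star (Complex.I / 2) = 1 by
        simp only [Complex.star_def, map_div₀, map_one, Complex.conj_I, Complex.conj_ofNat]
        rw [mul_div_assoc', mul_neg, Complex.I_mul_I]; norm_num]
      simp
    · simp
  have hT2 : T 2 + Complex.I • T 3 = Matrix.fromBlocks (A₂ X) 0 yᴴ 0 := by
    simp only [T, Matrix.fromBlocks_smul, Matrix.fromBlocks_add, A₂]
    congr 1
    · simp only [β, Matrix.cons_val, smul_smul, ← add_smul]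
      rw [show (1 / 2 : ℂ) + Complex.I * (Complex.I / 2) = 0 by
        rw [← mul_div_assoc, Complex.I_mul_I]; ring]
      simp
    · simp only [β, Matrix.cons_val, Matrix.conjTranspose_smul, smul_smul, ← add_smul]
      rw [show star (1 / 2 : ℂ) + Complex.I * star (Complex.I / 2) = 1 by
        simp only [Complex.star_def, map_div₀, map_one, Complex.conj_I, Complex.conj_ofNat]
        rw [mul_div_assoc', mul_neg, Complex.I_mul_I]; norm_num]
      simp
    · simp
  have hYA1 : A₁ Y = (Matrix.fromBlocks (A₁ X) 0 xᴴ 0).submatrix e.symm e.symm := by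
    rw [← hT1]; rfl
  have hYA2 : A₂ Y = (Matrix.fromBlocks (A₂ X) 0 yᴴ 0).submatrix e.symm e.symm := by
    rw [← hT2]; rfl
  have hTsa : ∀ j, (T j)ᴴ = T j := by
    intro j
    simp only [T, Matrix.fromBlocks_conjTranspose, Matrix.conjTranspose_conjTranspose,
      Matrix.conjTranspose_zero, (hX.2.1 j).eq]
  -- Y is in the row ball
  have hY : Y ∈ rowBall (n + 1) := by
    refine ⟨Nat.succ_pos n, fun j => ?_, ?_⟩
    · change (Y j)ᴴ = Y j
      simp only [Y, Matrix.conjTranspose_submatrix, hTsa]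
    · rw [hYA1, hYA2]
      simp only [Matrix.conjTranspose_submatrix, Matrix.submatrix_mul_equiv,
        Matrix.fromBlocks_conjTranspose, Matrix.conjTranspose_zero,
        Matrix.conjTranspose_conjTranspose, Matrix.fromBlocks_multiply, Matrix.mul_zero,
        add_zero]
      have h1 : (1 : Matrix (Fin (n + 1)) (Fin (n + 1)) ℂ)
          = (Matrix.fromBlocks 1 0 0 1 : Matrix (Fin n ⊕ Fin 1) (Fin n ⊕ Fin 1) ℂ).submatrix
            e.symm e.symm := by
        rw [Matrix.fromBlocks_one, Matrix.submatrix_one_equiv]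
      rw [h1]
      have h2 : ∀ P Q R : Matrix (Fin n ⊕ Fin 1) (Fin n ⊕ Fin 1) ℂ,
          P.submatrix e.symm e.symm - (Q.submatrix e.symm e.symm + R.submatrix e.symm e.symm)
            = (P - (Q + R)).submatrix e.symm e.symm := fun P Q R => rfl
      rw [h2, Matrix.posSemidef_submatrix_equiv, Matrix.fromBlocks_add, hxy]
      have hxy' : xᴴ * (A₁ X)ᴴ + yᴴ * (A₂ X)ᴴ = 0 := by
        have := congrArg Matrix.conjTranspose hxy
        simpa [Matrix.conjTranspose_mul] using this
      rw [hxy', hnorm]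
      have h3 : (Matrix.fromBlocks 1 0 0 1 - Matrix.fromBlocks
          (A₁ X * (A₁ X)ᴴ + A₂ X * (A₂ X)ᴴ) 0 0 1 :
            Matrix (Fin n ⊕ Fin 1) (Fin n ⊕ Fin 1) ℂ)
          = Matrix.fromRows (1 : Matrix (Fin n) (Fin n) ℂ) (0 : Matrix (Fin 1) (Fin n) ℂ) *
            (1 - (A₁ X * (A₁ X)ᴴ + A₂ X * (A₂ X)ᴴ)) *
            (Matrix.fromRows (1 : Matrix (Fin n) (Fin n) ℂ) (0 : Matrix (Fin 1) (Fin n) ℂ))ᴴ := by
        rw [Matrix.fromRows_mul, Matrix.conjTranspose_fromRows_eq_fromCols_conjTranspose,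
          Matrix.fromRows_mul_fromCols]
        rw [sub_eq_add_neg, Matrix.fromBlocks_neg, Matrix.fromBlocks_add]
        simp [sub_eq_add_neg]
      rw [h3]
      exact hX.2.2.mul_mul_conjTranspose_same _
  -- the compression
  let V : Matrix (Fin (n + 1)) (Fin n) ℂ :=
    (Matrix.fromRows (1 : Matrix (Fin n) (Fin n) ℂ) (0 : Matrix (Fin 1) (Fin n) ℂ)).submatrix
      e.symm id
  have hVV : Vᴴ * V = 1 := by
    simp only [V, Matrix.conjTranspose_submatrix, Matrix.submatrix_mul_equiv]
    rw [Matrix.conjTranspose_fromRows_eq_fromCols_conjTranspose, Matrix.fromCols_mul_fromRows]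
    simp
  have hVYV : ∀ j, X j = Vᴴ * Y j * V := by
    intro j
    simp only [V, Y, T, Matrix.conjTranspose_submatrix, Matrix.submatrix_mul_equiv]
    rw [Matrix.conjTranspose_fromRows_eq_fromCols_conjTranspose, Matrix.fromCols_mul_fromBlocks,
      Matrix.fromCols_mul_fromRows]
    simp
  refine ⟨Y, V, hY, hVV, hVYV, ?_⟩
  rintro l Z ⟨U, hU1, hU2, hU3⟩
  -- sizes
  have hl : l = 1 := by
    have h1 : (U * Uᴴ).trace = (Uᴴ * U).trace := Matrix.trace_mul_comm _ _
    rw [hU1, hU2, Matrix.trace_one, Matrix.trace_one] at h1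
    simp only [Fintype.card_fin, Fintype.card_sum] at h1
    have : (n + 1 : ℕ) = n + l := by exact_mod_cast h1
    omega
  subst hl
  have htr : ∀ (M : Matrix (Fin n ⊕ Fin 1) (Fin n ⊕ Fin 1) ℂ), (U * M * Uᴴ).trace = M.trace := by
    intro M
    rw [Matrix.trace_mul_comm, ← Matrix.mul_assoc, hU1, Matrix.one_mul]
  have htrY : ∀ M : Matrix (Fin n ⊕ Fin 1) (Fin n ⊕ Fin 1) ℂ,
      (M.submatrix e.symm e.symm).trace = M.trace := by
    intro M
    simp only [Matrix.trace, Matrix.diag_apply, Matrix.submatrix_apply]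
    exact Equiv.sum_comp e.symm (fun i => M i i)
  have hZ0 : ∀ j, Z j = 0 := by
    intro j
    have h1 : (Y j).trace = (X j).trace := by
      simp only [Y, T]
      rw [htrY, trace_fromBlocks']
      simp
    rw [hU3 j, htr, trace_fromBlocks'] at h1
    have h2 : (Z j).trace = 0 := by
      have := h1
      simpa using this
    rw [Matrix.trace_fin_one] at h2
    ext a b
    rw [Subsingleton.elim a 0, Subsingleton.elim b 0, h2]
    rfl
  have hβ : ∀ j, β j = 0 := by
    intro j
    have h1 : (Y j * Y j).trace = (X j * X j).trace := by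
      rw [hU3 j, hZ0 j]
      have : U * Matrix.fromBlocks (X j) 0 0 (0 : Matrix (Fin 1) (Fin 1) ℂ) * Uᴴ *
          (U * Matrix.fromBlocks (X j) 0 0 (0 : Matrix (Fin 1) (Fin 1) ℂ) * Uᴴ)
          = U * (Matrix.fromBlocks (X j * X j) 0 0 (0 : Matrix (Fin 1) (Fin 1) ℂ)) * Uᴴ := by
        calc _ = U * Matrix.fromBlocks (X j) 0 0 (0 : Matrix (Fin 1) (Fin 1) ℂ) * (Uᴴ * U) *
              (Matrix.fromBlocks (X j) 0 0 (0 : Matrix (Fin 1) (Fin 1) ℂ) * Uᴴ) := by
                simp only [Matrix.mul_assoc]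
          _ = U * (Matrix.fromBlocks (X j) 0 0 (0 : Matrix (Fin 1) (Fin 1) ℂ) *
              Matrix.fromBlocks (X j) 0 0 (0 : Matrix (Fin 1) (Fin 1) ℂ)) * Uᴴ := by
                rw [hU1, Matrix.mul_one]
                simp only [Matrix.mul_assoc]
          _ = _ := by
                rw [Matrix.fromBlocks_multiply]
                simp
      rw [this, htr, trace_fromBlocks']
      simp
    have h2 : (Y j * Y j).trace = (X j * X j).trace + ((β j)ᴴ * β j).trace
        + ((β j)ᴴ * β j).trace := by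
      simp only [Y, T]
      rw [Matrix.submatrix_mul_equiv, htrY, Matrix.fromBlocks_multiply, trace_fromBlocks',
        Matrix.trace_add, Matrix.trace_add, Matrix.trace_mul_comm (β j) (β j)ᴴ]
      simp
    have h3 : ((β j)ᴴ * β j).trace = 0 := by
      rw [h1] at h2
      have : ((β j)ᴴ * β j).trace + ((β j)ᴴ * β j).trace = 0 := by
        linear_combination -h2
      have h4 : 2 * ((β j)ᴴ * β j).trace = 0 := by rw [two_mul]; exact this
      simpa using h4
    rwa [Matrix.trace_conjTranspose_mul_self_eq_zero_iff] at h3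
  have hx0 : x = 0 := by
    have := hβ 0
    simpa [β] using this
  have hy0 : y = 0 := by
    have := hβ 2
    simpa [β] using this
  rw [hx0, hy0] at hnorm
  have := congrFun (congrFun hnorm 0) 0
  simp at this

end Pool.Agent.H3.MatConv
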