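import Pool.Agent.H65.MC.Conj

/-!
# Truncation of a part of a matrix convex combination, and compactness of the hull of a union
-/

open Matrix
open scoped ComplexOrder

namespace Pool.Agent.H3.MatConv

variable {g : ℕ}

/-- A (not normalised) combination of elements of a matrix convex set `S` can be written with one
element of the same level. -/
theorem one_term {S : GSet g} (hc : IsMatrixConvex S) {y₀ : Tup g 1} (hy : y₀ ∈ S 1) {n : ℕ}
    (hn : 0 < n) {ι : Type} [Fintype ι] {m : ι → ℕ} {Y : ∀ i : ι, Tup g (m i)}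
    (hY : ∀ i, Y i ∈ S (m i)) (V : ∀ i : ι, Matrix (Fin (m i)) (Fin n) ℂ) :
    ∃ (Z : Tup g n) (P : Matrix (Fin n) (Fin n) ℂ), Z ∈ S n ∧
      Pᴴ * P = ∑ i, (V i)ᴴ * V i ∧ ∀ j, Pᴴ * Z j * P = ∑ i, (V i)ᴴ * Y i j * V i := by
  classical
  -- padding
  let κ : Type := ι ⊕ Fin n
  let p : κ → ℕ := Sum.elim m (fun _ => 1)
  let D : ∀ s : κ, Tup g (p s) := fun s => match s with
    | Sum.inl i => Y i
    | Sum.inr _ => y₀
  let W : ∀ s : κ, Matrix (Fin (p s)) (Fin n) ℂ := fun s => match s with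
    | Sum.inl i => V i
    | Sum.inr _ => 0
  have hD : ∀ s, D s ∈ S (p s) := by
    rintro (i | k)
    · exact hY i
    · exact hy
  have hcard : n ≤ Fintype.card (Σ s, Fin (p s)) := by
    let f : Fin n → (Σ s, Fin (p s)) := fun k => ⟨Sum.inr k, (0 : Fin 1)⟩
    have hf : Function.Injective f := by
      intro a b hab
      simp only [f, Sigma.mk.injEq] at hab
      exact Sum.inr_injective hab.1
    simpa using Fintype.card_le_of_injective f hf
  let T : Matrix (Σ s, Fin (p s)) (Fin n) ℂ := Matrix.of fun s k => W s.1 s.2 k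
  have hTW : ∀ s, (Matrix.of fun a k => T ⟨s, a⟩ k) = W s := fun s => rfl
  let B : Fin g → Matrix (Σ s, Fin (p s)) (Σ s, Fin (p s)) ℂ := fun j =>
    Matrix.blockDiagonal' (fun s => D s j)
  obtain ⟨U, hU, hfix⟩ := exists_isometry_fixing hcard (fun k s => T s k)
  have hUT : U * Uᴴ * T = T := by
    ext s k
    have := congrFun (hfix k) s
    simp only [Matrix.mulVec, dotProduct] at this
    rw [Matrix.mul_apply]
    exact this
  have hTU : Tᴴ * (U * Uᴴ) = Tᴴ := by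
    have := congrArg Matrix.conjTranspose hUT
    simpa [Matrix.conjTranspose_mul, Matrix.mul_assoc] using this
  refine ⟨fun j => Uᴴ * B j * U, Uᴴ * T, ?_, ?_, ?_⟩
  · apply hc
    refine ⟨hn, κ, inferInstance, p, D, fun s => Matrix.of fun a k => U ⟨s, a⟩ k, hD, ?_, ?_⟩
    · have := conj_blockDiagonal' (fun s => (1 : Matrix (Fin (p s)) (Fin (p s)) ℂ)) U U
      rw [show (Matrix.blockDiagonal' fun s => (1 : Matrix (Fin (p s)) (Fin (p s)) ℂ)) = 1 from
        Matrix.blockDiagonal'_one] at this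
      rw [Matrix.mul_one, hU] at this
      rw [this]
      refine Finset.sum_congr rfl fun s _ => ?_
      rw [Matrix.mul_one]
    · intro j
      exact conj_blockDiagonal' _ _ _
  · have h1 : (Uᴴ * T)ᴴ * (Uᴴ * T) = Tᴴ * T := by
      calc (Uᴴ * T)ᴴ * (Uᴴ * T) = Tᴴ * (U * Uᴴ * T) := by
            rw [Matrix.conjTranspose_mul, Matrix.conjTranspose_conjTranspose]
            simp only [Matrix.mul_assoc]
        _ = Tᴴ * T := by rw [hUT]
    have h2 := conj_blockDiagonal' (fun s => (1 : Matrix (Fin (p s)) (Fin (p s)) ℂ)) T T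
    rw [show (Matrix.blockDiagonal' fun s => (1 : Matrix (Fin (p s)) (Fin (p s)) ℂ)) = 1 from
      Matrix.blockDiagonal'_one, Matrix.mul_one] at h2
    rw [h1, h2, Fintype.sum_sum_type]
    simp only [hTW, Matrix.mul_one]
    have h3 : ∀ k : Fin n, (W (Sum.inr k))ᴴ * W (Sum.inr k) = 0 := by
      intro k
      exact Matrix.mul_zero _
    simp only [h3, Finset.sum_const_zero, add_zero]
    rfl
  · intro j
    have h1 : (Uᴴ * T)ᴴ * (Uᴴ * B j * U) * (Uᴴ * T) = Tᴴ * B j * T := by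
      calc (Uᴴ * T)ᴴ * (Uᴴ * B j * U) * (Uᴴ * T)
          = (Tᴴ * (U * Uᴴ)) * B j * (U * Uᴴ * T) := by
            rw [Matrix.conjTranspose_mul, Matrix.conjTranspose_conjTranspose]
            simp only [Matrix.mul_assoc]
        _ = Tᴴ * B j * T := by rw [hTU, hUT]
    rw [h1, conj_blockDiagonal', Fintype.sum_sum_type]
    simp only [hTW]
    have h3 : ∀ k : Fin n, (W (Sum.inr k))ᴴ * D (Sum.inr k) j * W (Sum.inr k) = 0 := by
      intro k
      exact Matrix.mul_zero _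
    simp only [h3, Finset.sum_const_zero, add_zero]
    rfl

/-- Elements of the matrix convex hull of the union of two matrix convex sets. -/
theorem hull_union_iff {S₁ S₂ : GSet g} (h₁ : IsMatrixConvex S₁) (h₂ : IsMatrixConvex S₂)
    {y₁ y₂ : Tup g 1} (hy₁ : y₁ ∈ S₁ 1) (hy₂ : y₂ ∈ S₂ 1) {n : ℕ} (hn : 0 < n) (X : Tup g n) :
    X ∈ mconv (fun n => S₁ n ∪ S₂ n) n ↔ ∃ (Z₁ Z₂ : Tup g n) (P Q : Matrix (Fin n) (Fin n) ℂ),
      Z₁ ∈ S₁ n ∧ Z₂ ∈ S₂ n ∧ Pᴴ * P + Qᴴ * Q = 1 ∧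
        ∀ j, X j = Pᴴ * Z₁ j * P + Qᴴ * Z₂ j * Q := by
  classical
  constructor
  · rintro ⟨_, ι, hι, m, Y, V, hY, hc1, hc2⟩
    obtain ⟨Z₁, P, hZ₁, hP1, hP2⟩ := one_term h₁ hy₁ hn
      (ι := {i // Y i ∈ S₁ (m i)}) (m := fun i => m i.1) (Y := fun i => Y i.1)
      (fun i => i.2) (fun i => V i.1)
    obtain ⟨Z₂, Q, hZ₂, hQ1, hQ2⟩ := one_term h₂ hy₂ hn
      (ι := {i // ¬ Y i ∈ S₁ (m i)}) (m := fun i => m i.1) (Y := fun i => Y i.1)
      (fun i => (hY i.1).resolve_left i.2) (fun i => V i.1)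
    refine ⟨Z₁, Z₂, P, Q, hZ₁, hZ₂, ?_, fun j => ?_⟩
    · rw [hP1, hQ1, ← hc1]
      exact Fintype.sum_subtype_add_sum_subtype (fun i => Y i ∈ S₁ (m i))
        (fun i => (V i)ᴴ * V i)
    · rw [hP2, hQ2, hc2]
      exact (Fintype.sum_subtype_add_sum_subtype (fun i => Y i ∈ S₁ (m i))
        (fun i => (V i)ᴴ * Y i j * V i)).symm
  · rintro ⟨Z₁, Z₂, P, Q, hZ₁, hZ₂, h, hX⟩
    exact two_term_mem hn X Z₁ Z₂ (Or.inl hZ₁) (Or.inr hZ₂) P Q h hX

/-- The matrix convex hull of the union of two closed bounded matrix convex sets is compact. -/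
theorem hull_union_compact {S₁ S₂ : GSet g} (h₁ : IsMatrixConvex S₁) (h₂ : IsMatrixConvex S₂)
    (hb₁ : IsClosedBounded S₁) (hb₂ : IsClosedBounded S₂)
    {y₁ y₂ : Tup g 1} (hy₁ : y₁ ∈ S₁ 1) (hy₂ : y₂ ∈ S₂ 1) (n : ℕ) :
    IsCompact (mconv (fun n => S₁ n ∪ S₂ n) n) := by
  rcases Nat.eq_zero_or_pos n with h | hn
  · subst h
    rw [mconv_zero]
    exact isCompact_empty
  let A : Set ((Tup g n × Tup g n) × (Matrix (Fin n) (Fin n) ℂ × Matrix (Fin n) (Fin n) ℂ)) :=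
    ((S₁ n) ×ˢ (S₂ n)) ×ˢ {V | (V.1)ᴴ * V.1 + (V.2)ᴴ * V.2 = 1}
  have hA : IsCompact A := by
    refine ((isCompact_level hb₁ n).prod (isCompact_level hb₂ n)).prod ?_
    refine ((isCompact_of_entries 1).prod (isCompact_of_entries 1)).of_isClosed_subset ?_ ?_
    · exact isClosed_eq (by fun_prop) continuous_const
    · rintro ⟨P, Q⟩ hPQ
      have h1 : (Matrix.fromRows P Q)ᴴ * Matrix.fromRows P Q = 1 := by
        rw [Matrix.conjTranspose_fromRows_eq_fromCols_conjTranspose, Matrix.fromCols_mul_fromRows]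
        exact hPQ
      have h2 : ∀ (s : Fin n ⊕ Fin n) (k : Fin n), ‖Matrix.fromRows P Q s k‖ ≤ 1 := by
        intro s k
        let e : Fin (n + n) ≃ Fin n ⊕ Fin n := finSumFinEquiv.symm
        have h3 : ((Matrix.fromRows P Q).submatrix e id)ᴴ *
            ((Matrix.fromRows P Q).submatrix e id) = 1 := by
          rw [Matrix.conjTranspose_submatrix, Matrix.submatrix_mul_equiv, h1]
          rfl
        have := entry_le_one _ h3 (e.symm s) k
        simpa using this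
      exact ⟨fun a b => by simpa using h2 (Sum.inl a) b, fun a b => by simpa using h2 (Sum.inr a) b⟩
  let Φ : (Tup g n × Tup g n) × (Matrix (Fin n) (Fin n) ℂ × Matrix (Fin n) (Fin n) ℂ) → Tup g n :=
    fun p j => (p.2.1)ᴴ * p.1.1 j * p.2.1 + (p.2.2)ᴴ * p.1.2 j * p.2.2
  have hΦ : Continuous Φ := by
    refine continuous_pi fun j => ?_
    simp only [Φ]
    fun_prop
  have himg : mconv (fun n => S₁ n ∪ S₂ n) n = Φ '' A := by
    ext X
    rw [hull_union_iff h₁ h₂ hy₁ hy₂ hn]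
    constructor
    · rintro ⟨Z₁, Z₂, P, Q, hZ₁, hZ₂, h, hX⟩
      exact ⟨((Z₁, Z₂), (P, Q)), ⟨⟨hZ₁, hZ₂⟩, h⟩, funext fun j => (hX j).symm⟩
    · rintro ⟨⟨⟨Z₁, Z₂⟩, ⟨P, Q⟩⟩, ⟨⟨hZ₁, hZ₂⟩, h⟩, rfl⟩
      exact ⟨Z₁, Z₂, P, Q, hZ₁, hZ₂, h, fun j => rfl⟩
  rw [himg]
  exact hA.image hΦ

theorem closedBounded_of_compact {K : GSet g} (h : ∀ n, IsCompact (K n)) :
    IsClosedBounded K := by
  intro n
  refine ⟨(h n).isClosed, ?_⟩
  obtain ⟨C, hC⟩ := (h n).exists_bound_of_continuousOn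
    (f := fun X : Tup g n => (fun j a b => X j a b : Fin g → Fin n → Fin n → ℂ))
    (by
      apply Continuous.continuousOn
      fun_prop)
  refine ⟨C, fun X hX j a b => ?_⟩
  have h1 := hC X hX
  have h2 := norm_le_pi_norm (fun j a b => X j a b : Fin g → Fin n → Fin n → ℂ) j
  have h3 := norm_le_pi_norm (fun a b => X j a b : Fin n → Fin n → ℂ) a
  have h4 := norm_le_pi_norm (fun b => X j a b : Fin n → ℂ) b
  exact ((h4.trans h3).trans h2).trans h1

end Pool.Agent.H3.MatConv
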