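import Pool.Agent.H65.MC.Dil

/-!
# The matrix convex hull of the row ball and of its entrywise conjugate

This set is closed under entrywise complex conjugation, closed and bounded, and it has no free
extreme points.
-/

open Matrix
open scoped ComplexOrder

namespace Pool.Agent.H3.MatConv

/-- The matrix convex hull of the row ball and of its entrywise conjugate (the column ball, in
these coordinates). -/
def twoBall : GSet 4 := mconv (unionConj rowBall)

theorem zero_mem_conj_rowBall : (0 : Tup 4 1) ∈ conjS rowBall 1 := by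
  have h : conjT (0 : Tup 4 1) = 0 := funext fun j => conjM_zero
  show conjT (0 : Tup 4 1) ∈ rowBall 1
  rw [h]
  exact zero_mem_rowBall

theorem twoBall_selfAdjoint : IsSelfAdjointSet twoBall :=
  ⟨mconv_zero _, fun _ _ hX j =>
    isHermitian_of_mem_mconv (unionConj_selfAdjoint rowBall_selfAdjoint) hX j⟩

theorem twoBall_matrixConvex : IsMatrixConvex twoBall := mconv_isMatrixConvex _

theorem twoBall_conjClosed : IsConjClosed twoBall := mconv_conjClosed (unionConj_conjClosed _)

theorem twoBall_closedBounded : IsClosedBounded twoBall :=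
  closedBounded_of_compact fun n =>
    hull_union_compact rowBall_matrixConvex (conjS_matrixConvex rowBall_matrixConvex)
      rowBall_closedBounded (conjS_closedBounded rowBall_closedBounded)
      zero_mem_rowBall zero_mem_conj_rowBall n

theorem zero_mem_twoBall : (0 : Tup 4 1) ∈ twoBall 1 :=
  subset_mconv 1 one_pos (Or.inl zero_mem_rowBall)

/-- A free extreme point of the matrix convex hull of a self-adjoint set `S` is a compression, by an
isometry, of an element of `S`. -/
theorem freeExt_mconv {g : ℕ} {S : GSet g} {n : ℕ} {X : Tup g n}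
    (hX : X ∈ freeExt (mconv S) n) :
    ∃ (m : ℕ) (Y : Tup g m) (U : Matrix (Fin m) (Fin n) ℂ), Y ∈ S m ∧ Uᴴ * U = 1 ∧
      ∀ j, X j = Uᴴ * Y j * U := by
  classical
  obtain ⟨⟨hn, ι, hι, m, Y, V, hY, hc1, hc2⟩, hfree⟩ := hX
  -- drop the vanishing coefficients
  have hs : ∀ M : ι → Matrix (Fin n) (Fin n) ℂ, (∀ i, V i = 0 → M i = 0) →
      ∑ i : {i // V i ≠ 0}, M i.1 = ∑ i, M i := by
    intro M hM
    rw [← Fintype.sum_subtype_add_sum_subtype (fun i => V i ≠ 0) M]
    rw [show ∑ i : {i // ¬ V i ≠ 0}, M i.1 = 0 from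
      Finset.sum_eq_zero fun i _ => hM i.1 (not_not.mp i.2), add_zero]
  have hc1' : ∑ i : {i // V i ≠ 0}, (V i.1)ᴴ * V i.1 = 1 := by
    rw [hs (fun i => (V i)ᴴ * V i) (fun i hi => by rw [hi, Matrix.mul_zero]), hc1]
  have hc2' : ∀ j, X j = ∑ i : {i // V i ≠ 0}, (V i.1)ᴴ * Y i.1 j * V i.1 := by
    intro j
    rw [hs (fun i => (V i)ᴴ * Y i j * V i) (fun i hi => by rw [hi, Matrix.mul_zero]), hc2]
  have hne : Nonempty {i // V i ≠ 0} := by
    by_contra h
    rw [not_nonempty_iff] at h
    rw [Finset.univ_eq_empty, Finset.sum_empty] at hc1'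
    have := congrFun (congrFun hc1' ⟨0, hn⟩) ⟨0, hn⟩
    simp at this
  have hm : ∀ i, 0 < m i ∨ V i = 0 := by
    intro i
    rcases Nat.eq_zero_or_pos (m i) with h | h
    · right
      ext a
      exact absurd a.2 (by omega)
    · left
      exact h
  obtain ⟨i⟩ := hne
  have key := hfree {i // V i ≠ 0} inferInstance (fun i => m i.1) (fun i => Y i.1)
    (fun i => V i.1)
    (fun i => subset_mconv (m i.1) ((hm i.1).resolve_right i.2) (hY i.1))
    (fun i => i.2) ⟨hc1', hc2'⟩ i
  rcases key with ⟨h1, U, hU1, hU2, hU3⟩ | ⟨h1, l, Z, hZ, U, hU1, hU2, hU3⟩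
  · refine ⟨m i.1, Y i.1, U, hY i.1, hU1, fun j => ?_⟩
    rw [hU3 j]
    calc X j = (Uᴴ * U) * X j * (Uᴴ * U) := by rw [hU1]; simp
      _ = Uᴴ * (U * X j * Uᴴ) * U := by simp only [Matrix.mul_assoc]
  · let E : Matrix (Fin n ⊕ Fin l) (Fin n) ℂ :=
      Matrix.fromRows (1 : Matrix (Fin n) (Fin n) ℂ) (0 : Matrix (Fin l) (Fin n) ℂ)
    have hE1 : Eᴴ * E = 1 := by
      simp only [E]
      rw [Matrix.conjTranspose_fromRows_eq_fromCols_conjTranspose, Matrix.fromCols_mul_fromRows]
      simp
    have hE2 : ∀ j, Eᴴ * Matrix.fromBlocks (X j) 0 0 (Z j) * E = X j := by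
      intro j
      simp only [E]
      rw [Matrix.conjTranspose_fromRows_eq_fromCols_conjTranspose, Matrix.fromCols_mul_fromBlocks,
        Matrix.fromCols_mul_fromRows]
      simp
    refine ⟨m i.1, Y i.1, U * E, hY i.1, ?_, fun j => ?_⟩
    · calc (U * E)ᴴ * (U * E) = Eᴴ * (Uᴴ * U) * E := by
            rw [Matrix.conjTranspose_mul]
            simp only [Matrix.mul_assoc]
        _ = 1 := by rw [hU1, Matrix.mul_one, hE1]
    · rw [hU3 j]
      symm
      calc (U * E)ᴴ * (U * Matrix.fromBlocks (X j) 0 0 (Z j) * Uᴴ) * (U * E)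
          = Eᴴ * (Uᴴ * U) * Matrix.fromBlocks (X j) 0 0 (Z j) * (Uᴴ * U) * E := by
            rw [Matrix.conjTranspose_mul]
            simp only [Matrix.mul_assoc]
        _ = X j := by rw [hU1, Matrix.mul_one, Matrix.mul_one, hE2]

/-- A point of a matrix convex set which has a nontrivial dilation is not free extreme. -/
theorem not_freeExt_of_dilation {g : ℕ} {K : GSet g} {n m : ℕ} (hn : 0 < n) (hnm : m ≠ n)
    {X : Tup g n} {Y : Tup g m} {V : Matrix (Fin m) (Fin n) ℂ} (hY : Y ∈ K m) (hV : Vᴴ * V = 1)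
    (hX : ∀ j, X j = Vᴴ * Y j * V)
    (hZ : ∀ (l : ℕ) (Z : Tup g l), ¬ UnitarilyEquivalentSum Y X Z) : X ∉ freeExt K n := by
  rintro ⟨_, hfree⟩
  have hVne : V ≠ 0 := by
    intro h
    rw [h] at hV
    have := congrFun (congrFun hV ⟨0, hn⟩) ⟨0, hn⟩
    simp at this
  have hcon := hfree Unit inferInstance (fun _ => m) (fun _ => Y) (fun _ => V)
    (fun _ => hY) (fun _ => hVne) ⟨by simpa using hV, fun j => by simpa using hX j⟩ ()
  rcases hcon with ⟨h, _⟩ | ⟨_, l, Z, _, hU⟩
  · exact hnm h
  · exact hZ l Z hU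

theorem conj_unitarilyEquivalentSum {g m n l : ℕ} {Y : Tup g m} {X : Tup g n} {Z : Tup g l}
    (h : UnitarilyEquivalentSum Y X Z) :
    UnitarilyEquivalentSum (conjT Y) (conjT X) (conjT Z) := by
  obtain ⟨U, h1, h2, h3⟩ := h
  have hmul : ∀ {a b c : Type} [Fintype b] (A : Matrix a b ℂ) (B : Matrix b c ℂ),
      (A * B).map (starRingEnd ℂ) = A.map (starRingEnd ℂ) * B.map (starRingEnd ℂ) :=
    fun A B => Matrix.map_mul
  have hct : ∀ {a b : Type} (A : Matrix a b ℂ),
      (Aᴴ).map (starRingEnd ℂ) = (A.map (starRingEnd ℂ))ᴴ := by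
    intro a b A
    ext i j
    simp
  have hone : ∀ {a : Type} [DecidableEq a],
      (1 : Matrix a a ℂ).map (starRingEnd ℂ) = 1 := by
    intro a _
    exact Matrix.map_one _ (map_zero _) (map_one _)
  refine ⟨U.map (starRingEnd ℂ), ?_, ?_, fun j => ?_⟩
  · rw [← hct, ← hmul, h1, hone]
  · rw [← hct, ← hmul, h2, hone]
  · show (Y j).map (starRingEnd ℂ) = _
    rw [h3 j, hmul, hmul, hct, Matrix.fromBlocks_map]
    congr 3
    all_goals first
      | rfl
      | (ext a b; simp)

/-- The set `twoBall` has no free extreme points. -/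
theorem freeExt_twoBall (n : ℕ) : freeExt twoBall n = ∅ := by
  ext X
  simp only [Set.mem_empty_iff_false, iff_false]
  intro hX
  have hn : 0 < n := hX.1.1
  obtain ⟨m, Y, U, hY, hU, hXY⟩ := freeExt_mconv hX
  have hXe : X = fun j => Uᴴ * Y j * U := funext hXY
  rcases hY with hY | hY
  · have hXr : X ∈ rowBall n := by
      rw [hXe]
      exact compress_mem rowBall_matrixConvex hn hY U hU
    obtain ⟨Y', V, hY', hV, hXV, hZ⟩ := rowBall_dilation hXr
    exact not_freeExt_of_dilation (K := twoBall) hn (by omega)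
      (subset_mconv (n + 1) (Nat.succ_pos n) (Or.inl hY')) hV hXV hZ hX
  · have hXr : X ∈ conjS rowBall n := by
      rw [hXe]
      exact compress_mem (conjS_matrixConvex rowBall_matrixConvex) hn hY U hU
    obtain ⟨Y', V, hY', hV, hXV, hZ⟩ := rowBall_dilation (X := conjT X) hXr
    refine not_freeExt_of_dilation (K := twoBall) (Y := conjT Y') (V := conjM V) hn
      (by omega : n + 1 ≠ n) (subset_mconv (n + 1) (Nat.succ_pos n) (Or.inr ?_)) ?_ (fun j => ?_)
      (fun l Z hs => ?_) hX
    · show conjT (conjT Y') ∈ rowBall (n + 1)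
      rwa [conjT_conjT]
    · rw [← conjM_conjTranspose, ← conjM_mul, hV, conjM_one]
    · have := congrArg conjM (hXV j)
      rw [conjT_apply, conjM_conjM] at this
      rw [this, conjM_mul, conjM_mul, conjM_conjTranspose, conjT_apply]
    · have := conj_unitarilyEquivalentSum hs
      rw [conjT_conjT] at this
      exact hZ l _ this

end Pool.Agent.H3.MatConv
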